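import Pool.Agent.MP_c1891a_nt.H43.Spec

/-
Row One: no very small value on a subgroup of small degree.
-/

namespace Pool.Agent.MP_c1891a_nt.H43

open Finset Polynomial Module

lemma one_abs (P : LP) (v₁ v₂ : ℤ) {μ : ℤ × ℤ} (hμ : μ ∈ P.coeff.support) :
    |v₁ * μ.1 + v₂ * μ.2| ≤ A1 P v₁ v₂ := by
  have h : max μ.1.natAbs μ.2.natAbs ≤ Rn P :=
    Finset.le_sup (f := fun μ : ℤ × ℤ => max μ.1.natAbs μ.2.natAbs) hμ
  have h1 : |μ.1| ≤ Rn P := by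
    rw [Int.abs_eq_natAbs]
    omega
  have h2 : |μ.2| ≤ Rn P := by
    rw [Int.abs_eq_natAbs]
    omega
  refine (abs_add_le _ _).trans ?_
  rw [abs_mul, abs_mul, A1]
  push_cast
  nlinarith [abs_nonneg v₁, abs_nonneg v₂]

lemma one_ex (P : LP) (v₁ v₂ : ℤ) {μ : ℤ × ℤ} (hμ : μ ∈ P.coeff.support) :
    (ex P v₁ v₂ μ : ℤ) = A1 P v₁ v₂ + v₁ * μ.1 + v₂ * μ.2 ∧ ex P v₁ v₂ μ ≤ 2 * A1 P v₁ v₂ := by
  have h := abs_le.1 (one_abs P v₁ v₂ hμ)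
  unfold ex
  omega

lemma one_eval (P : LP) (η₁ η₂ x : ℂ) (v₁ v₂ : ℤ) (hx : x ≠ 0) :
    (F1 P η₁ η₂ v₁ v₂).eval x = x ^ A1 P v₁ v₂ * ev P (η₁ * x ^ v₁) (η₂ * x ^ v₂) := by
  rw [F1, ev, eval_finsetSum, mul_sum]
  refine sum_congr rfl fun μ hμ => ?_
  rw [eval_mul, eval_C, eval_pow, eval_X, ← zpow_natCast, (one_ex P v₁ v₂ hμ).1, zpow_add₀ hx,
    zpow_add₀ hx, zpow_natCast, mul_zpow, mul_zpow, zpow_mul, zpow_mul]
  ring

lemma one_map {L : Type} [Field L] (σ : L →+* ℂ) (P : LP) (η₁ η₂ : L) (v₁ v₂ : ℤ) :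
    (F1 P η₁ η₂ v₁ v₂).map σ = F1 P (σ η₁) (σ η₂) v₁ v₂ := by
  simp [F1, Polynomial.map_sum]

lemma one_deg (P : LP) (η₁ η₂ : ℂ) (v₁ v₂ : ℤ) :
    (F1 P η₁ η₂ v₁ v₂).natDegree ≤ 2 * A1 P v₁ v₂ :=
  natDegree_sum_le_of_forall_le _ _ fun _ hμ =>
    (natDegree_C_mul_X_pow_le _ _).trans (one_ex P v₁ v₂ hμ).2

lemma one_int {L : Type} [Field L] (P : LP) {η : L} {g : ℕ} (hg : 0 < g) (h : η ^ g = 1)
    (k₁ k₂ v₁ v₂ : ℤ) : IntC (F1 P (η ^ k₁) (η ^ k₂) v₁ v₂) := by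
  have key : ∀ k m : ℤ, IsIntegral ℤ ((η ^ k) ^ m) := fun k m => by
    refine IsIntegral.of_pow hg ?_
    rw [← zpow_mul, ← zpow_natCast, ← zpow_mul, mul_comm, zpow_mul, zpow_natCast, h, one_zpow]
    exact isIntegral_one
  intro i
  rw [F1, finsetSum_coeff]
  refine IsIntegral.sum _ fun μ _ => ?_
  rw [coeff_C_mul_X_pow]
  split_ifs
  · exact ((isIntegral_algebraMap (R := ℤ) (x := P.coeff μ)).mul (key _ _)).mul (key _ _)
  · exact isIntegral_zero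

lemma one_mul_bd (P : LP) {η₁ η₂ : ℂ} (h₁ : ‖η₁‖ = 1) (h₂ : ‖η₂‖ = 1) (v₁ v₂ : ℤ) (G : ℂ[X])
    {B : ℝ} (hB : 0 ≤ B) (h : ∀ n, ‖G.coeff n‖ ≤ B) (n : ℕ) :
    ‖(F1 P η₁ η₂ v₁ v₂ * G).coeff n‖ ≤ Hn P * B := by
  rw [F1, sum_mul, finsetSum_coeff, Hn, Nat.cast_sum, sum_mul]
  refine (norm_sum_le _ _).trans (sum_le_sum fun μ _ => ?_)
  rw [mul_assoc, coeff_C_mul, norm_mul, norm_mul, norm_mul, norm_zpow, norm_zpow, h₁, h₂,
    one_zpow, one_zpow, mul_one, mul_one, Complex.norm_intCast, Nat.cast_natAbs, Int.cast_abs,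
    coeff_X_pow_mul']
  refine mul_le_mul_of_nonneg_left ?_ (abs_nonneg _)
  split_ifs
  · exact h _
  · simpa using hB

lemma one_prod_bd {ι : Type} (P : LP) (s : Finset ι) (η₁ η₂ : ι → ℂ) (h₁ : ∀ i, ‖η₁ i‖ = 1)
    (h₂ : ∀ i, ‖η₂ i‖ = 1) (v₁ v₂ : ℤ) (n : ℕ) :
    ‖(∏ i ∈ s, F1 P (η₁ i) (η₂ i) v₁ v₂).coeff n‖ ≤ (Hn P : ℝ) ^ s.card := by
  classical
  induction s using Finset.induction_on generalizing n with
  | empty =>
    rw [prod_empty, coeff_one, card_empty, pow_zero]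
    split_ifs <;> simp
  | insert a s ha ih =>
    rw [prod_insert ha, card_insert_of_notMem ha, pow_succ']
    exact one_mul_bd P (h₁ a) (h₂ a) v₁ v₂ _ (by positivity) ih n

lemma one_dist {ζ : ℂ} {n : ℕ} (hn : 0 < n) (h : ζ ^ n = 1) (h1 : ζ ≠ 1) : 1 ≤ n * ‖ζ - 1‖ := by
  have hz : ‖ζ‖ = 1 := Complex.norm_eq_one_of_pow_eq_one h hn.ne'
  have h2 : ∑ i ∈ range n, ζ ^ i = 0 := by
    have := geom_sum_mul ζ n
    rw [h, sub_self] at this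
    exact (mul_eq_zero.1 this).resolve_right (sub_ne_zero.2 h1)
  have h3 : ∀ i : ℕ, ‖ζ ^ i - 1‖ ≤ i * ‖ζ - 1‖ := by
    intro i
    induction i with
    | zero => simp
    | succ i ih =>
      have h4 : ζ ^ (i + 1) - 1 = ζ * (ζ ^ i - 1) + (ζ - 1) := by ring
      rw [h4]
      refine (norm_add_le _ _).trans ?_
      rw [norm_mul, hz]
      push_cast
      linarith
  have h4 : ‖∑ i ∈ range n, (ζ ^ i - 1)‖ = n := by
    rw [sum_sub_distrib, h2]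
    simp
  have h5 : ‖∑ i ∈ range n, (ζ ^ i - 1)‖ ≤ n * (n * ‖ζ - 1‖) := by
    refine (norm_sum_le _ _).trans ?_
    have := sum_le_card_nsmul (range n) (fun i => ‖ζ ^ i - 1‖) (n * ‖ζ - 1‖) fun i hi =>
      (h3 i).trans (by
        have : (i : ℝ) ≤ n := by exact_mod_cast (mem_range.1 hi).le
        gcongr)
    rwa [card_range, nsmul_eq_mul] at this
  have hn' : (0 : ℝ) < n := by exact_mod_cast hn
  rw [h4] at h5
  exact le_of_mul_le_mul_left (by linarith) hn'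

/-- the norm polynomial -/
lemma one_norm (h2 : SField) (h3 : SNormP) (P : LP) {g : ℕ} {ω X₀ α : ℂ} (k₁ k₂ v₁ v₂ : ℤ)
    (hg : 0 < g) (hω : IsPrimitiveRoot ω g) (hX : X₀ ≠ 0) (hα : α ≠ 0)
    (h0 : ev P (ω ^ k₁ * X₀ ^ v₁) (ω ^ k₂ * X₀ ^ v₂) ≠ 0)
    (h1 : ev P (ω ^ k₁ * α ^ v₁) (ω ^ k₂ * α ^ v₂) = 0) :
    ∃ T : ℤ[X], T ≠ 0 ∧ T.natDegree ≤ g * (2 * A1 P v₁ v₂) ∧
      (∀ n, |T.coeff n| ≤ 2 ^ (Hn P * g)) ∧ aeval α T = 0 := by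
  obtain ⟨L, _, _, ι, ω', hι, hr, -⟩ := h2.1 g ω hg hω
  have hω' : ω' ^ g = 1 := ι.injective (by rw [map_pow, hι, hω.pow_eq_one, map_one])
  obtain ⟨T, hT⟩ := (h3 L).2.1 _ (one_int P hg hω' k₁ k₂ v₁ v₂)
  have hc : (univ : Finset (L →+* ℂ)).card ≤ g := by
    rw [card_univ, NumberField.Embeddings.card, hr]
    exact Nat.totient_le g
  have e : (F1 P (ω' ^ k₁) (ω' ^ k₂) v₁ v₂).map ι = F1 P (ω ^ k₁) (ω ^ k₂) v₁ v₂ := by
    rw [one_map, map_zpow₀, map_zpow₀, hι]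
  have hf : F1 P (ω' ^ k₁) (ω' ^ k₂) v₁ v₂ ≠ 0 := by
    intro h
    have h4 := one_eval P (ω ^ k₁) (ω ^ k₂) X₀ v₁ v₂ hX
    rw [← e, h, Polynomial.map_zero, eval_zero] at h4
    exact mul_ne_zero (pow_ne_zero _ hX) h0 h4.symm
  refine ⟨T, fun h => ?_, ?_, fun n => ?_, ?_⟩
  · rw [h, cx, Polynomial.map_zero] at hT
    obtain ⟨σ, -, hσ⟩ := prod_eq_zero_iff.1 hT.symm
    exact hf ((Polynomial.map_eq_zero_iff σ.injective).1 hσ)
  · rw [← natDegree_map_eq_of_injective (Int.castRingHom ℂ).injective_int]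
    change (cx T).natDegree ≤ _
    rw [hT]
    refine (natDegree_prod_le _ _).trans ((sum_le_card_nsmul _ _ _ fun σ _ => ?_).trans
      (Nat.mul_le_mul_right _ hc))
    rw [one_map]
    exact one_deg _ _ _ _ _
  · have hn : ∀ (σ : L →+* ℂ) (k : ℤ), ‖σ (ω' ^ k)‖ = 1 := fun σ k => by
      rw [map_zpow₀, norm_zpow, Complex.norm_eq_one_of_pow_eq_one
        (show σ ω' ^ g = 1 by rw [← map_pow, hω', map_one]) hg.ne', one_zpow]
    have h4 := one_prod_bd P univ (fun σ : L →+* ℂ => σ (ω' ^ k₁)) (fun σ => σ (ω' ^ k₂))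
      (fun σ => hn σ _) (fun σ => hn σ _) v₁ v₂ n
    simp only [← one_map] at h4
    rw [← hT, cx, coeff_map, eq_intCast, Complex.norm_intCast] at h4
    have h5 : (Hn P : ℝ) ^ (univ : Finset (L →+* ℂ)).card ≤ 2 ^ (Hn P * g) := by
      have h6 : (Hn P : ℝ) ≤ 2 ^ Hn P := by exact_mod_cast (Nat.lt_two_pow_self (n := Hn P)).le
      rw [pow_mul]
      exact (pow_le_pow_left₀ (by positivity) h6 _).trans
        (pow_le_pow_right₀ (one_le_pow₀ (by norm_num)) hc)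
    exact_mod_cast h4.trans h5
  · have h4 : aeval α T = (cx T).eval α := by
      rw [cx, eval_map, aeval_def]
      rfl
    rw [h4, hT, eval_prod]
    refine prod_eq_zero (mem_univ ι) ?_
    rw [e, one_eval _ _ _ _ _ _ hα, h1, mul_zero]

theorem sOne (h1 : SNearP) (h2 : SField) (h3 : SNormP) (h4 : H79.STL) (h5 : SArith) : SOne := by
  intro P
  obtain ⟨C, h1⟩ := h1 P
  obtain ⟨Y₀, h4⟩ := h4
  obtain ⟨N₀, h5⟩ := h5 (1 / 2) (by norm_num)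
  obtain ⟨D, hD⟩ : ∃ D : ℕ, D = 6 * Rn P + 3 * Hn P + 15 + Y₀ := ⟨_, rfl⟩
  obtain ⟨K, hK⟩ : ∃ K : ℕ, K = C + 3 + (D + 1) ^ 14 + 2 * (N₀ + (D + 1) ^ 2) := ⟨_, rfl⟩
  refine ⟨(K + 1) ^ 300, fun M hM g ω X₀ k₁ k₂ v₁ v₂ hg hω hX hs h0 => ?_⟩
  have hM0 : 0 < M := lt_of_lt_of_le (by positivity) hM
  have hMr : (0 : ℝ) ≤ M := Nat.cast_nonneg M
  obtain ⟨u, hu⟩ : ∃ u : ℝ, u = (M : ℝ) ^ (1 / 300 : ℝ) := ⟨_, rfl⟩
  have hu0 : 0 ≤ u := by rw [hu]; positivity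
  have hpow : ∀ (n : ℕ) (r : ℝ), r = 1 / 300 * n → (M : ℝ) ^ r = u ^ n := fun n r hr => by
    rw [hu, ← Real.rpow_natCast, ← Real.rpow_mul hMr, hr]
  have hMu : (M : ℝ) = u ^ 300 := by rw [← hpow 300 1 (by norm_num), Real.rpow_one]
  have huK : (K : ℝ) + 1 ≤ u := by
    refine le_of_pow_le_pow_left₀ (n := 300) (by norm_num) hu0 ?_
    rw [← hMu]
    exact_mod_cast hM
  rw [hpow 20 _ (by norm_num)] at hs
  rw [hpow 291 _ (by norm_num)]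
  have hKr : (K : ℝ) = C + 3 + (D + 1) ^ 14 + 2 * (N₀ + (D + 1) ^ 2) := by exact_mod_cast hK
  have hDr : (D : ℝ) = 6 * Rn P + 3 * Hn P + 15 + Y₀ := by exact_mod_cast hD
  have pC : (0 : ℝ) ≤ C := Nat.cast_nonneg _
  have pD : (0 : ℝ) ≤ ((D : ℝ) + 1) ^ 14 := by positivity
  have pN : (0 : ℝ) ≤ N₀ + ((D : ℝ) + 1) ^ 2 := by positivity
  have pR : (0 : ℝ) ≤ Rn P := Nat.cast_nonneg _
  have pH : (0 : ℝ) ≤ Hn P := Nat.cast_nonneg _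
  have pY : (0 : ℝ) ≤ Y₀ := Nat.cast_nonneg _
  have hu1 : 1 ≤ u := by linarith
  have hstep : ∀ (c : ℝ) (a b : ℕ), c < u → a < b → c * u ^ a < u ^ b := fun c a b hc hab =>
    calc c * u ^ a < u * u ^ a := by gcongr
      _ = u ^ (a + 1) := by ring
      _ ≤ u ^ b := pow_le_pow_right₀ hu1 hab
  by_contra hcon
  rw [not_lt] at hcon
  have hX1 : ‖X₀‖ = 1 := Complex.norm_eq_one_of_pow_eq_one hX hM0.ne'
  have hX0 : X₀ ≠ 0 := fun h => by simp [h] at hX1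
  obtain ⟨α, hα, -, hd, hz⟩ := h1 g ω X₀ k₁ k₂ v₁ v₂ (u ^ 285) hg hω hX1
    (hs.trans (hstep 3 20 285 (by linarith) (by norm_num)).le) h0
    (hcon.trans (Real.exp_le_exp.2 (neg_le_neg (hstep C 285 291 (by linarith) (by norm_num)).le)))
  obtain ⟨T, hT0, hT1, hT2, hT3⟩ := one_norm h2 h3 P k₁ k₂ v₁ v₂ hg hω hX0 hα h0 hz
  have ht1 : 1 ≤ u ^ 20 := one_le_pow₀ hu1
  push_cast at hs
  obtain ⟨Y, hY1, hY2⟩ : ∃ Y : ℕ, D * u ^ 20 ≤ Y ∧ (Y : ℝ) ≤ (D + 1) * u ^ 20 :=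
    ⟨⌈D * u ^ 20⌉₊, Nat.le_ceil _, by
      have := (Nat.ceil_lt_add_one (a := D * u ^ 20) (by positivity)).le
      linarith⟩
  have hg0 : (0 : ℝ) ≤ g := Nat.cast_nonneg _
  have hv : (0 : ℝ) ≤ g * (|(v₁ : ℝ)| + |(v₂ : ℝ)|) := by positivity
  have hdeg : T.natDegree ≤ Y := by
    refine hT1.trans ?_
    have h6 : ((g * (2 * A1 P v₁ v₂) : ℕ) : ℝ) = 2 * Rn P * (g * (|(v₁ : ℝ)| + |(v₂ : ℝ)|)) := by
      rw [A1]
      push_cast [Nat.cast_natAbs]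
      ring
    have h7 : (2 * Rn P : ℝ) * (g * (|(v₁ : ℝ)| + |(v₂ : ℝ)|)) ≤ 2 * Rn P * (3 * u ^ 20) :=
      mul_le_mul_of_nonneg_left (by linarith) (by positivity)
    have h8 : ((g * (2 * A1 P v₁ v₂) : ℕ) : ℝ) ≤ Y := by
      rw [h6]
      rw [hDr] at hY1
      nlinarith
    exact_mod_cast h8
  have hco : ∀ n, |T.coeff n| ≤ 2 ^ Y := fun n => by
    refine (hT2 n).trans (pow_le_pow_right₀ (by norm_num) ?_)
    have h7 : (Hn P : ℝ) * g ≤ Hn P * (3 * u ^ 20) :=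
      mul_le_mul_of_nonneg_left (by linarith) pH
    have h8 : ((Hn P * g : ℕ) : ℝ) ≤ Y := by
      rw [hDr] at hY1
      push_cast
      nlinarith
    exact_mod_cast h8
  have hY0 : Y₀ ≤ Y := by
    have h8 : (Y₀ : ℝ) ≤ Y := by
      rw [hDr] at hY1
      nlinarith
    exact_mod_cast h8
  have hMY : M ≤ 2 ^ Y := by
    have h6 : u ^ 20 ≤ (2 : ℝ) ^ ⌊u ^ 20⌋₊ := by
      have h7 := (Nat.lt_floor_add_one (u ^ 20)).le
      have h8 : ⌊u ^ 20⌋₊ + 1 ≤ 2 ^ ⌊u ^ 20⌋₊ := Nat.lt_two_pow_self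
      have h9 : (⌊u ^ 20⌋₊ : ℝ) + 1 ≤ 2 ^ ⌊u ^ 20⌋₊ := by exact_mod_cast h8
      linarith
    have h7 : ⌊u ^ 20⌋₊ * 15 ≤ Y := by
      have h8 := Nat.floor_le (show 0 ≤ u ^ 20 by positivity)
      have h9 : ((⌊u ^ 20⌋₊ * 15 : ℕ) : ℝ) ≤ Y := by
        rw [hDr] at hY1
        push_cast
        nlinarith
      exact_mod_cast h9
    have h8 : (M : ℝ) ≤ 2 ^ Y :=
      calc (M : ℝ) = (u ^ 20) ^ 15 := by rw [hMu]; ring
        _ ≤ (2 ^ ⌊u ^ 20⌋₊) ^ 15 := by gcongr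
        _ = 2 ^ (⌊u ^ 20⌋₊ * 15) := (pow_mul _ _ _).symm
        _ ≤ _ := pow_le_pow_right₀ (by norm_num) h7
    exact_mod_cast h8
  by_cases htor : ∀ n : ℕ, 0 < n → α ^ n ≠ 1
  · have h6 := Real.exp_le_exp.1 ((h4 Y hY0 T α X₀ M hT0 hdeg hco hT3 htor hM0 hMY hX).trans hd)
    have h7 : (Y : ℝ) ^ 14 ≤ ((D + 1) * u ^ 20) ^ 14 := by gcongr
    have h8 := hstep ((D + 1) ^ 14) 280 285 (by linarith) (by norm_num)
    have h9 : (((D : ℝ) + 1) * u ^ 20) ^ 14 = (D + 1) ^ 14 * u ^ 280 := by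
      rw [mul_pow, ← pow_mul u]
    rw [h9] at h7
    generalize ((D : ℝ) + 1) ^ 14 * u ^ 280 = t at h7 h8
    linarith
  · push Not at htor
    obtain ⟨n, hn, hαn⟩ := htor
    have hfin : IsOfFinOrder α := isOfFinOrder_iff_pow_eq_one.2 ⟨n, hn, hαn⟩
    have hn0 : 0 < orderOf α := hfin.orderOf_pos
    have hprim : IsPrimitiveRoot α (orderOf α) := IsPrimitiveRoot.orderOf α
    have hdv : cyclotomic (orderOf α) ℤ ∣ T := by
      rw [cyclotomic_eq_minpoly hprim hn0]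
      exact minpoly.isIntegrallyClosed_dvd (hprim.isIntegral hn0) hT3
    have hφ : (orderOf α).totient ≤ Y := by
      rw [← natDegree_cyclotomic (orderOf α) ℤ]
      exact (natDegree_le_of_dvd hdv hT0).trans hdeg
    have hord : (orderOf α : ℝ) ≤ N₀ + (Y : ℝ) ^ 2 := by
      rcases le_total N₀ (orderOf α) with h | h
      · have h6 := (h5 _ h).1
        have h7 : ((orderOf α).totient : ℝ) ≤ Y := by exact_mod_cast hφ
        rw [show (1 - 1 / 2 : ℝ) = 1 / 2 by norm_num, ← Real.sqrt_eq_rpow] at h6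
        have h8 := Real.sqrt_le_iff.1 (h6.trans h7)
        have h9 : (0 : ℝ) ≤ N₀ := Nat.cast_nonneg _
        linarith [h8.2]
      · have h6 : (orderOf α : ℝ) ≤ N₀ := by exact_mod_cast h
        have h7 : (0 : ℝ) ≤ (Y : ℝ) ^ 2 := by positivity
        linarith
    have hne : α / X₀ ≠ 1 := fun h => h0 (by rwa [(div_eq_one_iff_eq hX0).1 h] at hz)
    have h6 := one_dist (ζ := α / X₀) (Nat.mul_pos hn0 hM0) (by
      rw [div_pow, pow_mul, pow_orderOf_eq_one, one_pow, mul_comm, pow_mul, hX, one_pow,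
        div_one]) hne
    rw [div_sub_one hX0, norm_div, hX1, div_one, Nat.cast_mul, hMu] at h6
    have h7 : (orderOf α : ℝ) ≤ (N₀ + (D + 1) ^ 2) * u ^ 40 := by
      have h8 : (Y : ℝ) ^ 2 ≤ ((D + 1) * u ^ 20) ^ 2 := by gcongr
      have h9 : (N₀ : ℝ) ≤ N₀ * u ^ 40 :=
        le_mul_of_one_le_right (Nat.cast_nonneg _) (one_le_pow₀ hu1)
      have h10 : (((D : ℝ) + 1) * u ^ 20) ^ 2 = (D + 1) ^ 2 * u ^ 40 := by
        rw [mul_pow, ← pow_mul u]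
      rw [h10] at h8
      rw [add_mul]
      linarith
    have h8 : (1 : ℝ) ≤ (N₀ + (D + 1) ^ 2) * u ^ 40 * u ^ 300 * Real.exp (-u ^ 285) :=
      h6.trans (by gcongr)
    rw [Real.exp_neg, ← div_eq_mul_inv, le_div_iff₀ (Real.exp_pos _), one_mul] at h8
    have h9 := Real.pow_div_factorial_le_exp (u ^ 285) (by positivity) 2
    have h10 := hstep (2 * (N₀ + (D + 1) ^ 2)) 340 570 (by linarith) (by norm_num)
    rw [← pow_mul, Nat.factorial_two] at h9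
    push_cast at h9
    have h11 : ((N₀ : ℝ) + (D + 1) ^ 2) * u ^ 40 * u ^ 300 = (N₀ + (D + 1) ^ 2) * u ^ 340 := by
      ring
    linarith

end Pool.Agent.MP_c1891a_nt.H43
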